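import Mathlib

/-!
# The least order of an abelian group containing `n` elements with unique multiset sums

For every `n ≥ 1` it is `2 ^ (n - 1)`. The lower bound: for a family `g_0, …, g_m` with unique
multiset sums the `2 ^ m` sums `∑_{j ∈ S} (g_j - g_m)`, `S ⊆ {0, …, m - 1}`, are distinct.
-/

set_option autoImplicit false

namespace Pool.Agent.Results.MP_6623a1_co.ExactOrder

/-- The family `g_0, …, g_{n-1}` has unique multiset sums: the only vector `k` of nonnegative
integers with `∑ k_j = n` and `∑ k_j g_j = ∑ g_j` is `(1, …, 1)`. -/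
def UniqueMultisetSums {G : Type*} [AddCommGroup G] {n : ℕ} (g : Fin n → G) : Prop :=
  ∀ k : Fin n → ℕ, ∑ j, k j = n → ∑ j, k j • g j = ∑ j, g j → ∀ j, k j = 1

/-- The orders of the finite abelian groups which contain a family of `n` elements with unique
multiset sums. -/
def orders (n : ℕ) : Set ℕ :=
  {N | ∃ (G : Type) (_ : AddCommGroup G) (_ : Finite G) (g : Fin n → G),
    UniqueMultisetSums g ∧ Nat.card G = N}

/-- `m(n)`: the least order of a finite abelian group containing a family of `n` elements with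
unique multiset sums. -/
noncomputable def m (n : ℕ) : ℕ := sInf (orders n)

/-- the key injectivity, for `|S| ≤ |T|` -/
lemma key {G : Type*} [AddCommGroup G] {d : ℕ} (g : Fin (d + 1) → G)
    (hg : UniqueMultisetSums g) (S T : Finset (Fin d)) (hST : S.card ≤ T.card)
    (h : ∑ j ∈ S, (g j.castSucc - g (Fin.last d)) = ∑ j ∈ T, (g j.castSucc - g (Fin.last d))) :
    S = T := by
  classical
  set k : Fin (d + 1) → ℕ := fun j => Fin.lastCases (motive := fun _ => ℕ) (1 + T.card - S.card)
    (fun i => 1 + (if i ∈ S then 1 else 0) - (if i ∈ T then 1 else 0)) j with hk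
  have hkl : k (Fin.last d) = 1 + T.card - S.card := by simp [hk]
  have hkc : ∀ i : Fin d, k i.castSucc =
      1 + (if i ∈ S then 1 else 0) - (if i ∈ T then 1 else 0) := fun i => by simp [hk]
  have hkc' : ∀ i : Fin d, k i.castSucc + (if i ∈ T then 1 else 0) =
      1 + (if i ∈ S then 1 else 0) := fun i => by
    rw [hkc]; split_ifs <;> omega
  have hs : ∑ j, k j = d + 1 := by
    rw [Fin.sum_univ_castSucc, hkl]
    have h1 : ∑ i : Fin d, (k i.castSucc + (if i ∈ T then 1 else 0)) =
        ∑ i : Fin d, (1 + (if i ∈ S then 1 else 0)) := Finset.sum_congr rfl fun i _ => hkc' i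
    rw [Finset.sum_add_distrib, Finset.sum_add_distrib] at h1
    simp at h1
    omega
  have ht : ∑ j, k j • g j = ∑ j, g j := by
    rw [Fin.sum_univ_castSucc, Fin.sum_univ_castSucc, hkl]
    have h1 : ∀ i : Fin d, k i.castSucc • g i.castSucc + (if i ∈ T then g i.castSucc else 0) =
        g i.castSucc + (if i ∈ S then g i.castSucc else 0) := fun i => by
      have := congrArg (fun a : ℕ => a • g i.castSucc) (hkc' i)
      simp only [add_smul, one_smul, ite_smul, zero_smul] at this
      exact this
    have h2 : ∑ i : Fin d, (k i.castSucc • g i.castSucc + (if i ∈ T then g i.castSucc else 0)) =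
        ∑ i : Fin d, (g i.castSucc + (if i ∈ S then g i.castSucc else 0)) :=
      Finset.sum_congr rfl fun i _ => h1 i
    rw [Finset.sum_add_distrib, Finset.sum_add_distrib, Finset.sum_ite_mem,
      Finset.sum_ite_mem, Finset.univ_inter, Finset.univ_inter] at h2
    rw [Finset.sum_sub_distrib, Finset.sum_sub_distrib, Finset.sum_const, Finset.sum_const] at h
    have h3 : (1 + T.card - S.card) • g (Fin.last d) + S.card • g (Fin.last d) =
        g (Fin.last d) + T.card • g (Fin.last d) := by
      rw [← add_smul, show 1 + T.card - S.card + S.card = 1 + T.card by omega, add_smul, one_smul]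
    have h4 : (1 + T.card - S.card) • g (Fin.last d) =
        g (Fin.last d) + T.card • g (Fin.last d) - S.card • g (Fin.last d) := by
      rw [← h3, add_sub_cancel_right]
    have h5 : ∑ i : Fin d, k i.castSucc • g i.castSucc =
        ∑ i : Fin d, g i.castSucc + ∑ i ∈ S, g i.castSucc - ∑ i ∈ T, g i.castSucc := by
      rw [← h2, add_sub_cancel_right]
    rw [h4, h5]
    have h6 : ∑ i ∈ S, g i.castSucc = ∑ i ∈ T, g i.castSucc - T.card • g (Fin.last d) +
        S.card • g (Fin.last d) := by
      rw [← h, sub_add_cancel]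
    rw [h6]
    abel
  have hall := hg k hs ht
  ext i
  have h1 := hall i.castSucc
  rw [hkc] at h1
  by_cases h2 : i ∈ S <;> by_cases h3 : i ∈ T <;> simp [h2, h3] at h1 ⊢

/-- the lower bound, also valid in infinite groups as an injection -/
lemma key_inj {G : Type*} [AddCommGroup G] {d : ℕ} (g : Fin (d + 1) → G)
    (hg : UniqueMultisetSums g) : Function.Injective
      (fun S : Finset (Fin d) => ∑ j ∈ S, (g j.castSucc - g (Fin.last d))) := by
  intro S T h
  rcases le_total S.card T.card with h1 | h1
  · exact key g hg S T h1 h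
  · exact (key g hg T S h1 h.symm).symm

lemma lower {n : ℕ} (hn : 1 ≤ n) {N : ℕ} (hN : N ∈ orders n) : 2 ^ (n - 1) ≤ N := by
  obtain ⟨d, rfl⟩ : ∃ d, n = d + 1 := ⟨n - 1, by omega⟩
  obtain ⟨G, _, _, g, hg, rfl⟩ := hN
  have := Nat.card_le_card_of_injective _ (key_inj g hg)
  simpa using this

lemma mem_orders {n : ℕ} (hn : 1 ≤ n) : 2 ^ (n - 1) ∈ orders n := by
  classical
  obtain ⟨d, rfl⟩ : ∃ d, n = d + 1 := ⟨n - 1, by omega⟩
  refine ⟨Fin d → ZMod 2, inferInstance, inferInstance,
    Fin.cons 0 (fun i => Pi.single i 1), ?_, by simp⟩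
  intro k hk hs
  rw [Fin.sum_univ_succ] at hk
  rw [Fin.sum_univ_succ, Fin.sum_univ_succ] at hs
  simp only [Fin.cons_zero, Fin.cons_succ, smul_zero, zero_add] at hs
  have hodd : ∀ i : Fin d, k i.succ % 2 = 1 := by
    intro i
    have h1 := congrFun hs i
    rw [Finset.sum_apply, Finset.sum_apply] at h1
    have h2 : ∀ j : Fin d, (k j.succ • (Pi.single j 1 : Fin d → ZMod 2)) i =
        if i = j then (k j.succ : ZMod 2) else 0 := fun j => by
      rw [Pi.smul_apply, Pi.single_apply]
      split_ifs <;> simp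
    have h3 : ∀ j : Fin d, (Pi.single j 1 : Fin d → ZMod 2) i =
        if i = j then (1 : ZMod 2) else 0 := fun j => by
      rw [Pi.single_apply]
    rw [Finset.sum_congr rfl fun j _ => h2 j, Finset.sum_congr rfl fun j _ => h3 j,
      Finset.sum_ite_eq, Finset.sum_ite_eq] at h1
    simp only [Finset.mem_univ, if_true] at h1
    have h4 : ((k i.succ : ℕ) : ZMod 2) = ((1 : ℕ) : ZMod 2) := by simpa using h1
    rw [ZMod.natCast_eq_natCast_iff] at h4
    simpa [Nat.ModEq] using h4
  -- write `k_{i+1} = 1 + 2 c_i`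
  have hc : ∀ i : Fin d, k i.succ = 1 + 2 * (k i.succ / 2) := fun i => by
    have := hodd i; omega
  have hsum : ∑ i : Fin d, k i.succ = d + 2 * ∑ i : Fin d, k i.succ / 2 := by
    conv_lhs => rw [Finset.sum_congr rfl fun i _ => hc i]
    rw [Finset.sum_add_distrib, Finset.mul_sum]
    simp
  have h0 : ∑ i : Fin d, k i.succ / 2 = 0 := by omega
  have hk0 : k 0 = 1 := by omega
  intro j
  refine Fin.cases hk0 (fun i => ?_) j
  have := (Finset.sum_eq_zero_iff.1 h0) i (Finset.mem_univ i)
  have := hc i
  omega

/-- **Main theorem.** For every `n ≥ 1`, the least order of a finite abelian group containing a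
family of `n` elements with unique multiset sums is `2 ^ (n - 1)`. -/
theorem result : ∀ n : ℕ, 1 ≤ n → IsLeast (orders n) (2 ^ (n - 1)) ∧ m n = 2 ^ (n - 1) := by
  intro n hn
  have h : IsLeast (orders n) (2 ^ (n - 1)) := ⟨mem_orders hn, fun N hN => lower hn hN⟩
  exact ⟨h, h.csInf_eq⟩

end Pool.Agent.Results.MP_6623a1_co.ExactOrder
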